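import Pool.Agent.Work.MP_0181e9_al.Closed
import Pool.Agent.Work.MP_0181e9_al.NotClosed

/-!
A semigroup which is `T_zS`-closed but not `T_2S`-closed.

The file gives the definitions of the problem: `T2SClosed` and `TzSClosed`.  It proves that there
is a semigroup `X` which is closed in every zero-dimensional Hausdorff topological semigroup
containing it as a discrete subsemigroup, and which is not closed in some Hausdorff topological
semigroup containing it as a discrete subsemigroup.
-/

set_option autoImplicit false

namespace Pool.Agent.Results.MP_0181e9_al.TzNotT2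

open Topology

universe u v

/-- The semigroup `X` is `T_2S`-closed: for every Hausdorff topological semigroup `Y` (of the
universe `u`) and every injective homomorphism `h : X → Y` which is a topological embedding of `X`
with the discrete topology, the image of `h` is closed in `Y`. -/
def T2SClosed (X : Type v) [Semigroup X] : Prop :=
  ∀ (Y : Type u) [Semigroup Y] [tY : TopologicalSpace Y] [ContinuousMul Y] [T2Space Y]
    (h : X →ₙ* Y), @IsEmbedding X Y ⊥ tY h → IsClosed (Set.range h)

/-- The semigroup `X` is `T_zS`-closed: for every Hausdorff topological semigroup `Y` (of the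
universe `u`) whose clopen sets form a base of the topology, and every injective homomorphism
`h : X → Y` which is a topological embedding of `X` with the discrete topology, the image of `h` is
closed in `Y`. -/
def TzSClosed (X : Type v) [Semigroup X] : Prop :=
  ∀ (Y : Type u) [Semigroup Y] [tY : TopologicalSpace Y] [ContinuousMul Y] [T2Space Y],
    TopologicalSpace.IsTopologicalBasis {s : Set Y | IsClopen s} →
    ∀ (h : X →ₙ* Y), @IsEmbedding X Y ⊥ tY h → IsClosed (Set.range h)

theorem discEmb_of {X : Type v} {Y : Type u} [Semigroup X] [Semigroup Y] [tY : TopologicalSpace Y]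
    (h : X →ₙ* Y) (he : @IsEmbedding X Y ⊥ tY h) : Work.MP_0181e9_al.DiscEmb h := by
  let tX : TopologicalSpace X := ⊥
  refine ⟨he.injective, fun x => ?_⟩
  have h1 : IsOpen[tX] ({x} : Set X) := trivial
  have h2 : tX = TopologicalSpace.induced h tY := he.eq_induced
  rw [h2, isOpen_induced_iff] at h1
  obtain ⟨G, hG, hG'⟩ := h1
  refine ⟨G, hG, fun x' => ?_⟩
  rw [← Set.mem_preimage, hG', Set.mem_singleton_iff]

theorem of_discEmb {X : Type v} {Y : Type u} [Semigroup X] [Semigroup Y] [tY : TopologicalSpace Y]
    (h : X →ₙ* Y) (hd : Work.MP_0181e9_al.DiscEmb h) : @IsEmbedding X Y ⊥ tY h := by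
  let tX : TopologicalSpace X := ⊥
  refine ⟨⟨?_⟩, hd.1⟩
  symm
  apply eq_bot_of_singletons_open
  intro x
  obtain ⟨G, hG, hG'⟩ := hd.2 x
  rw [isOpen_induced_iff]
  refine ⟨G, hG, ?_⟩
  ext x'
  rw [Set.mem_preimage, hG' x', Set.mem_singleton_iff]

/-- There is a `T_zS`-closed semigroup which is not `T_2S`-closed. -/
theorem result : ∃ (X : Type) (_ : Semigroup X), TzSClosed.{u} X ∧ ¬ T2SClosed.{0} X := by
  refine ⟨Work.MP_0181e9_al.XX, inferInstance, ?_, ?_⟩
  · intro Y _ _ _ _ hB h he
    refine Work.MP_0181e9_al.XX_closed Y h (fun y G hG hy => ?_) (discEmb_of h he)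
    obtain ⟨O, hO, hyO, hOG⟩ := hB.exists_subset_of_mem_open hy hG
    exact ⟨O, hO, hyO, hOG⟩
  · intro H
    exact Work.MP_0181e9_al.XX_not_closed fun Y _ _ _ _ h hd => H Y h (of_discEmb h hd)

end Pool.Agent.Results.MP_0181e9_al.TzNotT2
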